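import Pool.Agent.Run7.h902.EtDim

/-!
# MP_c1eb4d_ag, Q1: one weight, one dimension at a time, and moduli spaces of configurations of points

Fix a weight `n < 0`. `A i X` stands for the group `H^i(X_et, ℤ^c(n))` of an arithmetic scheme `X`. The
hypothesis `IsWeight n A` collects known properties (Geisser, Flach-Morin): invariance under isomorphisms,
vanishing for the empty scheme, long exact localization sequences, transfer for finite flat surjective
morphisms of integral schemes, finiteness of the torsion, and, for proper regular `X`, the fact that finite
generation in the degrees `i ≤ -2n + 1` implies finite generation in all degrees (duality). The hypothesis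
`AlterationsDim d` is the principle of dévissage which follows from de Jong's theorem on alterations of
arithmetic schemes, among the schemes of dimension at most `d`.

`FrameModuli ℤ B`: `Spec B` is a moduli space over `ℤ` of configurations of points in the projective plane:
the points `(1:0:0)`, `(0:1:0)`, `(0:0:1)`, `(1:1:1)` and finitely many points moving in given Schubert cells
`(1:x:y)`, `(0:1:y)`, `(0:0:1)`, such that every triple of points is prescribed to be collinear
or not collinear: the realization space over `ℤ` of a matroid of rank `3` modulo `PGL_3`.

Theorem, for every weight `n` and every dimension `d`: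

* `tfae`: finite generation in the degrees `i ≤ -2n + 1` for the proper regular schemes of dimension at
  most `d` (this is Q1 in the weight `n` and the dimensions `≤ d`), finite generation in all degrees for all
  arithmetic schemes of dimension at most `d`, and finite generation in the degrees `i ≤ -2n + 1` for the
  integral realization spaces of dimension at most `d`, smooth over `ℤ` or over a prime field, are equivalent;
* `step`: if finite generation is known for all arithmetic schemes of dimension at most `d - 1`, then the
  realization spaces of dimension exactly `d` suffice (for `d = 2` the assumption is known).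

Proof. Every integral arithmetic scheme has a dense open subscheme which is ISOMORPHIC to such a realization
space (an exact form of the universality theorem of Mnev over `ℤ`, proved in `CuRing`, `CuGad`, `CuMain`,
`CxMain`), of the same dimension; localization in every single degree; dévissage by alterations.
-/

set_option autoImplicit false

open CategoryTheory AlgebraicGeometry Pool.Agent.Y116.UV Pool.Agent.Run7.h902

universe w

namespace Pool.Agent.Results.MP_c1eb4d_ag.ConfigurationsByDimension

/-- Finite generation for the integral realization spaces `Spec B`, smooth over `ℤ` or over a prime field,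
the dimension of which has the property `D`, in the degrees `i ≤ -2n + 1`. -/
def ForModuli (n : ℤ) (A : ℤ → Sch ℤ → ModuleCat.{w} ℤ) (D : WithBot ℕ∞ → Prop) : Prop :=
  ∀ (B : Type) [CommRing B] [Algebra ℤ B] [Algebra.FiniteType ℤ B], IsDomain B →
    Cu.SmoothZ B → Cx.FrameModuli ℤ B → D (ringKrullDim B) →
    ∀ i ≤ -2 * n + 1, Module.Finite ℤ (A i (aff ℤ B))

/-- Q1 in the weight `n` and the dimensions at most `d`. -/
def ForProperRegular (n : ℤ) (A : ℤ → Sch ℤ → ModuleCat.{w} ℤ) (d : ℕ) : Prop :=
  ∀ X : Sch ℤ, Ed.ProperRegular X → topologicalKrullDim X.left ≤ d →
    ∀ i ≤ -2 * n + 1, Module.Finite ℤ (A i X)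

/-- Finite generation for all arithmetic schemes of dimension at most `d`, in all degrees. -/
def ForAll (A : ℤ → Sch ℤ → ModuleCat.{w} ℤ) (d : ℕ) : Prop :=
  ∀ X : Sch ℤ, FT True X → topologicalKrullDim X.left ≤ d → ∀ i, Module.Finite ℤ (A i X)

/-- **Theorem.** For one weight `n` and one `d`: Q1 for proper regular schemes of dimension at most `d`,
finite generation for all arithmetic schemes of dimension at most `d` in all degrees, and finite generation
for the realization spaces of dimension at most `d` in the degrees `i ≤ -2n + 1` are equivalent; and if
all arithmetic schemes of dimension at most `d - 1` are known, the realization spaces of dimension exactly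
`d` suffice. -/
theorem result {n : ℤ} {A : ℤ → Sch ℤ → ModuleCat.{w} ℤ} (hA : Ed.IsWeight n A)
    (hJ : ∀ d, Ed.AlterationsDim d) (d : ℕ) :
    (ForProperRegular n A d ↔ ForAll A d) ∧ (ForProperRegular n A d ↔ ForModuli n A (· ≤ d)) ∧
    (ForAll A d →
      (ForProperRegular n A (d + 1) ↔ ForModuli n A (· = ((d + 1 : ℕ) : WithBot ℕ∞)))) :=
  ⟨(Ed.weight_tfae d (hJ d) hA).out 0 1, (Ed.weight_tfae d (hJ d) hA).out 0 2,
    fun h => Ed.weight_step d (hJ (d + 1)) hA h⟩

end Pool.Agent.Results.MP_c1eb4d_ag.ConfigurationsByDimension
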