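import Mathlib

/-!
# The conjecture of Flach and Morin in weight `-1` (or `0`) and in the degrees near the top

`Arith d X`: `X` is proper over `ℤ`, regular and connected, of dimension `d`. `ProjOver m X` is the
projective space of dimension `m` over `X`. `EtMot` collects the groups `H^i(X_et, ℤ^c(n))`, `n ≤ 0`,
with the known properties which are used: the projective bundle formula for `ProjOver m X`; the groups
are vector spaces over `ℚ` for `i < -2 d`; for `n < 0` they are finitely generated for `i = -2 n + 1`, and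
if this is the case for all `i ≤ -2 n + 1`, then for all `i`.

The conjecture (Q1) is that `H^i(X_et, ℤ^c(n))` is finitely generated for all `n < 0`, `i ≤ -2 n + 1`.

* For a fixed `X` the following are equivalent: Q1 for `X` and all weights `n < 0`; Q1 for all projective
  spaces over `X` in the single weight `-1`; for every `e ≥ 0` finite generation of
  `H^(3 - e)(ℙ^m_X, ℤ^c(-1))` for infinitely many `m`; all groups of all weights `n < 0` are finitely
  generated, and they vanish for `i < -2 d`.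
* Hence Q1 for all `X` is equivalent to finite generation of `H^i(X_et, ℤ^c(-1))`, `3 - f(dim X) ≤ i ≤ 3`,
  where `f` is any unbounded function, however small; or, more generally, to the part of the conjecture
  in weight `-1` for the pairs (dimension `d`, degree `3 - e`) in a set which contains for every `e` pairs
  with arbitrarily large `d`.
* It is implied by finite generation of `H^i(X_et, ℤ^c(0))`, `-f(dim X) ≤ i ≤ 0`, for all `X`, that is of
  `H^j(X_et, ℤ(d))` for `2 d - f(d) ≤ j ≤ 2 d`, `d = dim X`.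

Idea: the number `i + 2 n` is the same for `H^i(X_et, ℤ^c(n))` and for its copies in the cohomology of the
projective spaces over `X`.
-/

set_option autoImplicit false

open CategoryTheory CategoryTheory.Limits AlgebraicGeometry

namespace Pool.Agent.Results.MP_c1eb4d_ag.DegreesNearTheTop

attribute [local instance] MvPolynomial.gradedAlgebra

/-- `X` is a proper, regular and connected scheme over `ℤ` of Krull dimension `d`. -/
def Arith (d : ℕ) (X : Scheme.{0}) : Prop :=
  IsProper (specZIsTerminal.from X) ∧ (∀ x : X, IsRegularLocalRing (X.presheaf.stalk x)) ∧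
    ConnectedSpace X ∧ topologicalKrullDim X = d

/-- The projective space of dimension `m` over `X`. -/
noncomputable def ProjOver (m : ℕ) (X : Scheme.{0}) : Scheme.{0} :=
  pullback (specZIsTerminal.from X)
    (specZIsTerminal.from (Proj (MvPolynomial.homogeneousSubmodule (Fin (m + 1)) ℤ)))

/-- The groups `H^i(X_et, ℤ^c(n))`, `n ≤ 0`, with the known properties which are used. -/
structure EtMot where
  /-- the group `H^i(X_et, ℤ^c(n))` -/
  H : ℤ → ℤ → Scheme.{0} → Type
  /-- the group structure -/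
  grp : ∀ i n X, AddCommGroup (H i n X)
  /-- projective spaces over `X` are again proper, regular and connected -/
  proj : ∀ (d m : ℕ) (X : Scheme.{0}), Arith d X → Arith (d + m) (ProjOver m X)
  /-- projective bundle formula: `H^i(ℙ^m_X, ℤ^c(n)) = ⨁ H^(i + 2 k)(X, ℤ^c(n - k))`, the sum over
  `0 ≤ k ≤ m`, for `n ≤ 0` -/
  bundle : ∀ (d m : ℕ) (X : Scheme.{0}), Arith d X → ∀ i n : ℤ, n ≤ 0 →
    Nonempty (H i n (ProjOver m X) ≃+ ∀ k : Fin (m + 1), H (i + 2 * (k : ℤ)) (n - (k : ℤ)) X)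
  /-- `H^i(X_et, ℤ^c(n)) = H^(2 d + i)(X, ℤ(d - n))` is uniquely divisible for `2 d + i < 0` -/
  divisible : ∀ (d : ℕ) (X : Scheme.{0}), Arith d X → ∀ i n : ℤ, n ≤ 0 → i < -2 * d →
    Nonempty (Module ℚ (H i n X))
  /-- for `n < 0` the group of degree `-2 n + 1` is finite -/
  top : ∀ (d : ℕ) (X : Scheme.{0}), Arith d X → ∀ n : ℤ, n < 0 → Finite (H (-2 * n + 1) n X)
  /-- for `n < 0`, finite generation for `i ≤ -2 n + 1` implies finite generation for all `i` -/
  duality : ∀ (d : ℕ) (X : Scheme.{0}), Arith d X → ∀ n : ℤ, n < 0 →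
    (∀ i : ℤ, i ≤ -2 * n + 1 → AddGroup.FG (H i n X)) → ∀ i : ℤ, AddGroup.FG (H i n X)

attribute [instance] EtMot.grp

/-- `H^i(X_et, ℤ^c(n))` is finitely generated. -/
def EtMot.FG (T : EtMot) (i n : ℤ) (X : Scheme.{0}) : Prop := AddGroup.FG (T.H i n X)

/-- The conjecture Q1 for `X`: `H^i(X_et, ℤ^c(n))` is finitely generated for all `n < 0` and all
`i ≤ -2 n + 1`. -/
def EtMot.Q1 (T : EtMot) (X : Scheme.{0}) : Prop :=
  ∀ n i : ℤ, n < 0 → i ≤ -2 * n + 1 → T.FG i n X

/-- The part of the conjecture in weight `-1` for the pairs of the dimension `d` and the degree `3 - e`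
with `W d e`. -/
def EtMot.Part (T : EtMot) (W : ℕ → ℕ → Prop) : Prop :=
  ∀ (d : ℕ) (X : Scheme.{0}), Arith d X → ∀ e : ℕ, W d e → T.FG (3 - (e : ℤ)) (-1) X

/-- The analogous statement in weight `0` for the pairs of the dimension `d` and the degree `-e`
with `W d e`. -/
def EtMot.PartZero (T : EtMot) (W : ℕ → ℕ → Prop) : Prop :=
  ∀ (d : ℕ) (X : Scheme.{0}), Arith d X → ∀ e : ℕ, W d e → T.FG (-(e : ℤ)) 0 X

/-- The strong form for `X` of dimension `d`: for all weights `n < 0` the groups `H^i(X_et, ℤ^c(n))` are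
finitely generated, for all `i`, and zero for `i < -2 d`. -/
def EtMot.Strong (T : EtMot) (d : ℕ) (X : Scheme.{0}) : Prop :=
  ∀ n : ℤ, n < 0 → (∀ i : ℤ, T.FG i n X) ∧ ∀ i : ℤ, i < -2 * d → Subsingleton (T.H i n X)

/-- a vector space over `ℚ` which is a finitely generated group is zero -/
lemma rat_zero (V : Type) [AddCommGroup V] [Module ℚ V] (h : AddGroup.FG V) : Subsingleton V := by
  have h0 : Module.Finite ℤ V := Module.Finite.iff_addGroup_fg.mpr h
  have h1 : (⊤ : Submodule ℤ V) ≤ (Ideal.span {(2 : ℤ)}) • (⊤ : Submodule ℤ V) := by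
    intro v _
    have h2 : v = (2 : ℤ) • ((1 / 2 : ℚ) • v) := by
      rw [← Int.cast_smul_eq_zsmul ℚ, smul_smul]
      norm_num
    rw [h2]
    exact Submodule.smul_mem_smul (Ideal.mem_span_singleton_self _) trivial
  obtain ⟨r, hr, hr2⟩ := Submodule.exists_sub_one_mem_and_smul_eq_zero_of_fg_of_le_smul
    (Ideal.span {(2 : ℤ)}) ⊤ h0.fg_top h1
  have hr0 : (r : ℚ) ≠ 0 := by
    intro h
    have h3 : r = 0 := by exact_mod_cast h
    rw [h3, Ideal.mem_span_singleton] at hr
    omega
  refine ⟨fun a b => ?_⟩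
  have key : ∀ v : V, v = 0 := by
    intro v
    have h3 := hr2 v trivial
    rw [← Int.cast_smul_eq_zsmul ℚ] at h3
    exact (smul_eq_zero.mp h3).resolve_left hr0
  rw [key a, key b]

section

variable (T : EtMot)

lemma fg_cast {i i' n n' : ℤ} {X : Scheme.{0}} (hi : i = i') (hn : n = n') (h : T.FG i n X) :
    T.FG i' n' X := by
  subst hi hn
  exact h

/-- the factors of the cohomology of the projective space -/
lemma fg_factor {d m : ℕ} {X : Scheme.{0}} (hX : Arith d X) {i n : ℤ} (hn : n ≤ 0)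
    (h : T.FG i n (ProjOver m X)) (k : ℕ) (hk : k ≤ m) : T.FG (i + 2 * k) (n - k) X := by
  obtain ⟨e⟩ := T.bundle d m X hX i n hn
  unfold EtMot.FG at h ⊢
  exact AddGroup.fg_of_surjective
    (f := (Pi.evalAddMonoidHom (fun k : Fin (m + 1) => T.H (i + 2 * (k : ℤ)) (n - (k : ℤ)) X)
      ⟨k, Nat.lt_succ_of_le hk⟩).comp e.toAddMonoidHom)
    ((Function.surjective_eval _).comp e.surjective)

lemma fg_bundle {d m : ℕ} {X : Scheme.{0}} (hX : Arith d X) {i n : ℤ} (hn : n ≤ 0)
    (h : ∀ k : ℕ, k ≤ m → T.FG (i + 2 * k) (n - k) X) : T.FG i n (ProjOver m X) := by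
  obtain ⟨e⟩ := T.bundle d m X hX i n hn
  have h1 : ∀ k : Fin (m + 1), Module.Finite ℤ (T.H (i + 2 * (k : ℤ)) (n - (k : ℤ)) X) := fun k =>
    Module.Finite.iff_addGroup_fg.mpr (h k (Nat.lt_succ_iff.mp k.2))
  have h2 : AddGroup.FG (∀ k : Fin (m + 1), T.H (i + 2 * (k : ℤ)) (n - (k : ℤ)) X) :=
    Module.Finite.iff_addGroup_fg.mp inferInstance
  unfold EtMot.FG
  exact AddGroup.fg_of_surjective (f := e.symm.toAddMonoidHom) e.symm.surjective

/-- Q1 implies the strong form -/
lemma strong_of_q1 {d : ℕ} {X : Scheme.{0}} (hX : Arith d X) (h : T.Q1 X) : T.Strong d X := by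
  intro n hn
  have h1 : ∀ i : ℤ, T.FG i n X := T.duality d X hX n hn fun i hi => h n i hn hi
  refine ⟨h1, fun i hi => ?_⟩
  obtain ⟨hm⟩ := T.divisible d X hX i n hn.le hi
  exact rat_zero _ (h1 i)

lemma q1_of_strong {d : ℕ} {X : Scheme.{0}} (h : T.Strong d X) : T.Q1 X :=
  fun n i hn _ => (h n hn).1 i

/-- from infinitely many projective spaces to Q1 -/
lemma q1_of {d : ℕ} {X : Scheme.{0}} (hX : Arith d X)
    (h : ∀ e N : ℕ, ∃ m : ℕ, N ≤ m ∧ T.FG (3 - e) (-1) (ProjOver m X)) : T.Q1 X := by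
  intro n i hn hi
  obtain ⟨m, hm, h2⟩ := h (1 - i - 2 * n).toNat (-1 - n).toNat
  have h3 := fg_factor T hX (by omega) h2 (-1 - n).toNat hm
  refine fg_cast T ?_ ?_ h3 <;> omega

/-- from weight `0` to Q1 -/
lemma q1_of_zero {d : ℕ} {X : Scheme.{0}} (hX : Arith d X)
    (h : ∀ e N : ℕ, ∃ m : ℕ, N ≤ m ∧ T.FG (-e) 0 (ProjOver m X)) : T.Q1 X := by
  intro n i hn hi
  rcases hi.lt_or_eq with hi | rfl
  · obtain ⟨m, hm, h2⟩ := h (-i - 2 * n).toNat (-n).toNat
    have h3 := fg_factor T hX le_rfl h2 (-n).toNat hm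
    refine fg_cast T ?_ ?_ h3 <;> omega
  · have h1 := T.top d X hX n hn
    unfold EtMot.FG
    infer_instance

lemma window (f : ℕ → ℕ) (hf : ∀ N : ℕ, ∃ d : ℕ, N ≤ f d) (e N : ℕ) : ∃ d : ℕ, N ≤ d ∧ e ≤ f d := by
  classical
  obtain ⟨d, hd⟩ := hf (e + ∑ j ∈ Finset.range N, f j + 1)
  refine ⟨d, ?_, by omega⟩
  by_contra hlt
  push Not at hlt
  have h1 : f d ≤ ∑ j ∈ Finset.range N, f j :=
    Finset.single_le_sum (f := f) (fun _ _ => Nat.zero_le _) (Finset.mem_range.mpr hlt)
  omega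

end

/-- **The conjecture of Flach and Morin in the degrees near the top.**
(1) For every `X` the following are equivalent: Q1 for `X`; Q1 in weight `-1` for all projective spaces
over `X`; for every `e`, finite generation of `H^(3 - e)(ℙ^m_X, ℤ^c(-1))` for infinitely many `m`; the
strong form for `X`.
(2) For every `X`, Q1 is implied by finite generation of `H^(-e)(ℙ^m_X, ℤ^c(0))` for every `e` and
infinitely many `m`.
(3) Let `W` be a set of pairs `(d, e)` which contains for every `e` pairs with arbitrarily large `d`,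
for example `e ≤ f(d)` for an unbounded function `f`. Then Q1 for all `X` is equivalent to the part of
the conjecture in weight `-1` for the dimension `d` and the degree `3 - e` with `(d, e) ∈ W` only, and
to the strong form for all `X`; and it is implied by finite generation of `H^(-e)(X_et, ℤ^c(0))` for all
`X` of dimension `d` with `(d, e) ∈ W`. -/
theorem result (T : EtMot) :
    (∀ (d : ℕ) (X : Scheme.{0}), Arith d X → List.TFAE [
      T.Q1 X,
      ∀ (m : ℕ) (i : ℤ), i ≤ 3 → T.FG i (-1) (ProjOver m X),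
      ∀ e N : ℕ, ∃ m : ℕ, N ≤ m ∧ T.FG (3 - e) (-1) (ProjOver m X),
      T.Strong d X]) ∧
    (∀ (d : ℕ) (X : Scheme.{0}), Arith d X →
      (∀ e N : ℕ, ∃ m : ℕ, N ≤ m ∧ T.FG (-e) 0 (ProjOver m X)) → T.Q1 X) ∧
    (∀ W : ℕ → ℕ → Prop, (∀ e N : ℕ, ∃ d : ℕ, N ≤ d ∧ W d e) → List.TFAE [
      ∀ (d : ℕ) (X : Scheme.{0}), Arith d X → T.Q1 X, T.Part W,
      ∀ (d : ℕ) (X : Scheme.{0}), Arith d X → T.Strong d X] ∧
      (T.PartZero W → ∀ (d : ℕ) (X : Scheme.{0}), Arith d X → T.Q1 X)) ∧
    ∀ f : ℕ → ℕ, (∀ N : ℕ, ∃ d : ℕ, N ≤ f d) → ∀ e N : ℕ, ∃ d : ℕ, N ≤ d ∧ e ≤ f d := by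
  refine ⟨fun d X hX => ?_, fun d X hX => q1_of_zero T hX, fun W hW => ⟨?_, ?_⟩, window⟩
  · tfae_have 1 → 4 := strong_of_q1 T hX
    tfae_have 4 → 2 := fun h m i hi => fg_bundle T hX (by omega) fun k _ => (h _ (by omega)).1 _
    tfae_have 2 → 3 := fun h e N => ⟨N, le_rfl, h N _ (by omega)⟩
    tfae_have 3 → 1 := q1_of T hX
    tfae_finish
  · tfae_have 1 → 3 := fun h d X hX => strong_of_q1 T hX (h d X hX)
    tfae_have 3 → 2 := fun h d X hX e _ => (h d X hX (-1) (by omega)).1 _
    tfae_have 2 → 1 := by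
      intro h d X hX
      refine q1_of T hX fun e N => ?_
      obtain ⟨D, hD, hW2⟩ := hW e (N + d)
      obtain ⟨m, rfl⟩ : ∃ m : ℕ, D = d + m := ⟨D - d, by omega⟩
      exact ⟨m, by omega, h (d + m) (ProjOver m X) (T.proj d m X hX) e hW2⟩
    tfae_finish
  · intro h d X hX
    refine q1_of_zero T hX fun e N => ?_
    obtain ⟨D, hD, hW2⟩ := hW e (N + d)
    obtain ⟨m, rfl⟩ : ∃ m : ℕ, D = d + m := ⟨D - d, by omega⟩
    exact ⟨m, by omega, h (d + m) (ProjOver m X) (T.proj d m X hX) e hW2⟩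

end Pool.Agent.Results.MP_c1eb4d_ag.DegreesNearTheTop
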