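import Pool.Agent.Run7.h798.UV.Zc
import Pool.Agent.R904.CU.Regular

/-!
# MP_c1eb4d_ag, Q1: weight `-1`, low degrees and systems of bilinear equations

`A n i X` stands for the group `H^i(X_et, ℤ^c(n))` of an arithmetic scheme `X`. The hypothesis `IsZc A`
collects known properties for `n < 0` (Geisser): localization sequences, `A n i (X × 𝔸¹) = A (n-1) (i+2) X`,
and `A n i X` is a direct factor of `A n (i-1) (X × 𝔾_m)`. The hypothesis `Alterations` is the principle of
dévissage which follows from de Jong's theorem on alterations of arithmetic schemes.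
-/

set_option autoImplicit false

open CategoryTheory AlgebraicGeometry MvPolynomial Pool.Agent.Y116.UV Pool.Agent.Q282.UZ
  Pool.Agent.Q193.LT Run7.h798.UV Pool.Agent.R904.CU

universe w

namespace Pool.Agent.Results.MP_c1eb4d_ag.ThreeTermSystems

/-- `X` is a proper regular arithmetic scheme. -/
def ProperRegular (X : Sch ℤ) : Prop :=
  FT True X ∧ IsProper X.hom ∧ IsRegularScheme X.left

/-- Further known properties of `A n i X = H^i(X_et, ℤ^c(n))`, `n < 0`: transfer for finite flat surjective
morphisms of integral schemes, finiteness of the torsion, and for proper regular `X` (duality): if the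
groups in the degrees `i ≤ -2n + 1` are finitely generated, then all of them are. -/
structure HasDuality (A : ℤ → ℤ → Sch ℤ → ModuleCat.{w} ℤ) : Prop where
  transfer : ∀ n < 0, HasTransfer (A n)
  torsion : ∀ n < 0, TorsionFinite (A n)
  duality : ∀ n < 0, ∀ X : Sch ℤ, ProperRegular X → (∀ i ≤ -2 * n + 1, Module.Finite ℤ (A n i X)) →
    ∀ i, Module.Finite ℤ (A n i X)

lemma isLocal {A : ℤ → ℤ → Sch ℤ → ModuleCat.{w} ℤ} (hA : IsZc A) {n : ℤ} (hn : n < 0) :
    IsLocal True (A n) (Equiv.addRight 1) (Equiv.subRight 1) where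
  iso hX e j := hA.iso n hn hX e j
  les f g hX ht := hA.les n hn f g hX ht
  torus B _ _ _ q := hA.torus n hn B q

/-- **Theorem.** Let `N` be any integer. The groups `H^i(X_et, ℤ^c(n))` are finitely generated for all
proper regular arithmetic schemes `X`, all `n < 0` and all `i ≤ -2n + 1` (Q1) if and only if the groups
`H^i(X_et, ℤ^c(-1))` are finitely generated for the single weight `-1`, in the degrees `i ≤ N`, and for
the affine schemes `X` over `ℤ` given by a system of bilinear equations `∑_{(i, j) ∈ E_l} x_i y_j = 0`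
with at most three terms in every equation. -/
theorem result (hJ : Alterations fun X => IsRegularScheme X.left)
    {A : ℤ → ℤ → Sch ℤ → ModuleCat.{w} ℤ} (hA : IsZc A) (hD : HasDuality A) (N : ℤ) :
    (∀ n < 0, ∀ X : Sch ℤ, ProperRegular X → ∀ i ≤ -2 * n + 1, Module.Finite ℤ (A n i X)) ↔
      ∀ (a b c : ℕ) (E : Fin c → Finset (Fin a × Fin b)), (∀ l, (E l).card ≤ 3) →
        ∀ i ≤ N, Module.Finite ℤ (A (-1) i (sysS ℤ E)) := by
  constructor
  · intro h
    have hn : (-1 : ℤ) < 0 := by norm_num
    have h1 := hJ _ (alt_finite (isLocal hA hn) (hD.transfer _ hn) (hD.torsion _ hn))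
      fun X hX hp hr => hD.duality _ hn X ⟨hX, hp, hr⟩ (h _ hn X ⟨hX, hp, hr⟩)
    intro a b c E _ i _
    exact h1 _ (ft_aff True) i
  · intro h n hn X hX i _
    exact (zc_iff hA N).mpr h n hn X hX.1 i

end Pool.Agent.Results.MP_c1eb4d_ag.ThreeTermSystems
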