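import Pool.Agent.Run7.h570.GH.Zn

/-!
# MP_c1eb4d_ag: proper regular schemes, very negative weights and graph hypersurfaces

`A n i X` stands for the group `H^i(X_et, ℤ^c(n))` of an arithmetic scheme `X`. The hypothesis `IsZc A`
collects known properties for `n < 0` (Geisser): localization sequences, `A n i (X × 𝔸¹) = A (n-1) (i+2) X`,
and `A n i X` is a direct factor of `A n (i-1) (X × 𝔾_m)`; the hypothesis `IsDual A` consists of the transfer
for finite flat morphisms, finite torsion, and duality for proper regular `X`. `Alterations` is the
principle of dévissage which follows from de Jong's theorem on alterations of arithmetic schemes.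

For a finite graph `Γ` the Kirchhoff polynomial `kirchhoff ℤ Γ` is the sum over the spanning trees `T` of
the products of the variables `x_e`, `e ∈ T`; `complement ℤ Γ` is the complement of the hypersurface where
it vanishes, in the affine space over `ℤ` with one coordinate for each edge.

Theorem: Q1 for sufficiently negative `n` (the bound may depend on the proper regular scheme `X`) is
equivalent to the finite generation of the groups of the complements of graph hypersurfaces for
sufficiently negative `n`.
-/

set_option autoImplicit false

open CategoryTheory AlgebraicGeometry Pool.Agent.Y116.UV Run7.h798.UV Pool.Agent.Q282.UZ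
  Pool.Agent.R904.CU Run7.h570.GH

universe w

namespace Pool.Agent.Results.MP_c1eb4d_ag.VeryNegativeWeights

/-- **Theorem.** For all proper regular arithmetic schemes `X` the groups `H^i(X_et, ℤ^c(n))` are finitely
generated for all sufficiently negative `n` and all `i ≤ -2n + 1`, if and only if for all complements `X`
of graph hypersurfaces over `ℤ` they are finitely generated for all sufficiently negative `n` and
all `i`. -/
theorem result (hJ : Alterations fun X => IsRegularScheme X.left)
    {A : ℤ → ℤ → Sch ℤ → ModuleCat.{w} ℤ} (hA : IsZc A) (hD : IsDual A) :
    (∀ X : Sch ℤ, FT True X → IsProper X.hom → IsRegularScheme X.left →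
      ∃ N : ℤ, ∀ n ≤ N, ∀ i ≤ -2 * n + 1, Module.Finite ℤ (A n i X)) ↔
      ∀ (m : ℕ) (Γ : SimpleGraph (Fin m)), ∃ N : ℤ, ∀ n ≤ N, ∀ i,
        Module.Finite ℤ (A n i (complement ℤ Γ)) :=
  regular_graphs hJ hA hD

end Pool.Agent.Results.MP_c1eb4d_ag.VeryNegativeWeights
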